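import Mathlib

/-!
# MP_5ead0a_co: a 3-critical graph on 28 vertices with `γ = 3` and `i = 4`

The graph has vertices `(i, j)` (`i < 4`, `j < 7`), coded as `7 * i + j`.  Fix a decomposition
of `K₇` into four graphs `F₀, F₁, F₂, F₃`; join `(i, j)` and `(i, p)` when `jp ∈ Fᵢ`, and join
`(i, j)` and `(h, p)` whenever `i ≠ h` and `j ≠ p`.  (This is van der Merwe's construction with the
1-factorization replaced by a decomposition into graphs `Fᵢ` having no dominating pair, no
independent dominating triple, and such that no vertex is isolated in two of them.)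
-/

namespace Pool.Agent.Results.MP_5ead0a_co.SmallExample

open Finset

/-- `D` is a dominating set of `G`: every vertex outside `D` has a neighbour in `D`. -/
def IsDominating {V : Type*} (G : SimpleGraph V) (D : Finset V) : Prop :=
  ∀ v, v ∉ D → ∃ u ∈ D, G.Adj u v

/-- `D` is an independent set of `G`: no two of its vertices are adjacent. -/
def IsIndependent {V : Type*} (G : SimpleGraph V) (D : Finset V) : Prop :=
  ∀ u ∈ D, ∀ v ∈ D, ¬ G.Adj u v

/-- The domination number `γ(G)`: the least size of a dominating set. -/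
noncomputable def domNum {V : Type*} (G : SimpleGraph V) : ℕ :=
  sInf {k | ∃ D : Finset V, D.card = k ∧ IsDominating G D}

/-- The independent domination number `i(G)`: the least size of an independent dominating set. -/
noncomputable def indDomNum {V : Type*} (G : SimpleGraph V) : ℕ :=
  sInf {k | ∃ D : Finset V, D.card = k ∧ IsDominating G D ∧ IsIndependent G D}

/-- `G` is 3-critical: `γ(G) = 3` and `γ(G + uv) < 3` for every two distinct non-adjacent
vertices `u, v`. -/
def IsThreeCritical {V : Type*} (G : SimpleGraph V) : Prop :=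
  domNum G = 3 ∧ ∀ u v, u ≠ v → ¬ G.Adj u v → domNum (G ⊔ SimpleGraph.edge u v) < 3

/-- Closed neighbourhoods of the 28-vertex graph, as bit masks. -/
def mask : List ℕ :=
  [266321777, 264208002, 259980756, 251526088, 234616725, 200798113, 133160909,
   266306302, 264195453, 259966715, 251512695, 234604911, 200790111, 133161023,
   264404862, 262717181, 258031099, 250510327, 234764271, 200191967, 133439423,
   8372094, 150961917, 81722875, 18742263, 35387375, 211283935, 206561215]

/-- `b u v`: `v` lies in the closed neighbourhood of `u`. -/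
def b (u v : Fin 28) : Bool := (mask.getD u 0).testBit v

theorem b_symm : ∀ u v, b u v = b v u := by decide +kernel

theorem b_refl : ∀ u, b u u = true := by decide +kernel

/-- The 28-vertex graph. -/
def G : SimpleGraph (Fin 28) where
  Adj u v := u ≠ v ∧ b u v = true
  symm := ⟨fun u v h => ⟨h.1.symm, by rw [b_symm]; exact h.2⟩⟩
  loopless := ⟨fun _ h => h.1 rfl⟩

theorem pair_check : ∀ u v : Fin 28, ∃ x, b u x = false ∧ b v x = false := by decide +kernel

theorem triple_check : ∀ u v w : Fin 28,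
    (u ≠ v ∧ b u v = true) ∨ (u ≠ w ∧ b u w = true) ∨ (v ≠ w ∧ b v w = true) ∨
      ∃ x, b u x = false ∧ b v x = false ∧ b w x = false := by decide +kernel

theorem crit_check : ∀ u v : Fin 28, u = v ∨ b u v = true ∨
    ∃ w, (∀ x, x = v ∨ b u x = true ∨ b w x = true) ∨
      (∀ x, x = u ∨ b v x = true ∨ b w x = true) := by decide +kernel

theorem four_check : ∀ x, b 0 x = true ∨ b 7 x = true ∨ b 14 x = true ∨ b 21 x = true := by
  decide +kernel

theorem four_indep : ∀ x ∈ ({0, 7, 14, 21} : Finset (Fin 28)),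
    ∀ y ∈ ({0, 7, 14, 21} : Finset (Fin 28)), ¬ (x ≠ y ∧ b x y = true) := by
  decide +kernel

theorem dom_iff (D : Finset (Fin 28)) : IsDominating G D ↔ ∀ x, ∃ u ∈ D, b u x = true := by
  constructor
  · intro h x
    by_cases hx : x ∈ D
    · exact ⟨x, hx, b_refl x⟩
    · obtain ⟨u, hu, hux⟩ := h x hx
      exact ⟨u, hu, hux.2⟩
  · intro h x hx
    obtain ⟨u, hu, hux⟩ := h x
    refine ⟨u, hu, ?_, hux⟩
    rintro rfl
    exact hx hu

theorem small_cover {D : Finset (Fin 28)} (h : D.card ≤ 3) : ∃ u v w, D ⊆ {u, v, w} ∧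
    (D.Nonempty → u ∈ D ∧ v ∈ D ∧ w ∈ D) := by
  interval_cases hc : D.card
  · rw [card_eq_zero] at hc
    subst hc
    exact ⟨0, 0, 0, by simp, by simp⟩
  · rw [card_eq_one] at hc
    obtain ⟨a, rfl⟩ := hc
    exact ⟨a, a, a, by simp, by simp⟩
  · rw [card_eq_two] at hc
    obtain ⟨a, b, -, rfl⟩ := hc
    exact ⟨a, b, b, by simp, by simp⟩
  · rw [card_eq_three] at hc
    obtain ⟨a, b, c, -, -, -, rfl⟩ := hc
    exact ⟨a, b, c, by simp, by simp⟩

theorem two_cover {D : Finset (Fin 28)} (h : D.card ≤ 2) : ∃ u v, D ⊆ {u, v} := by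
  interval_cases hc : D.card
  · rw [card_eq_zero] at hc
    subst hc
    exact ⟨0, 0, by simp⟩
  · rw [card_eq_one] at hc
    obtain ⟨a, rfl⟩ := hc
    exact ⟨a, a, by simp⟩
  · rw [card_eq_two] at hc
    obtain ⟨a, b, -, rfl⟩ := hc
    exact ⟨a, b, by simp⟩

theorem three_le_of_dom {D : Finset (Fin 28)} (h : IsDominating G D) : 3 ≤ D.card := by
  by_contra hlt
  push Not at hlt
  obtain ⟨u, v, hD⟩ := two_cover (by omega : D.card ≤ 2)
  obtain ⟨x, hx1, hx2⟩ := pair_check u v
  rw [dom_iff] at h
  obtain ⟨w, hw, hwx⟩ := h x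
  have := hD hw
  simp only [mem_insert, mem_singleton] at this
  rcases this with rfl | rfl
  · rw [hx1] at hwx; exact absurd hwx (by decide)
  · rw [hx2] at hwx; exact absurd hwx (by decide)

theorem four_le_of_indDom {D : Finset (Fin 28)} (h : IsDominating G D)
    (hi : IsIndependent G D) : 4 ≤ D.card := by
  by_contra hlt
  push Not at hlt
  obtain ⟨u, v, w, hD, hne⟩ := small_cover (by omega : D.card ≤ 3)
  have hD3 := three_le_of_dom h
  have hDne : D.Nonempty := card_pos.1 (by omega)
  obtain ⟨hu, hv, hw⟩ := hne hDne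
  rw [dom_iff] at h
  rcases triple_check u v w with h1 | h1 | h1 | ⟨x, hx1, hx2, hx3⟩
  · exact hi u hu v hv h1
  · exact hi u hu w hw h1
  · exact hi v hv w hw h1
  · obtain ⟨y, hy, hyx⟩ := h x
    have := hD hy
    simp only [mem_insert, mem_singleton] at this
    rcases this with rfl | rfl | rfl
    · rw [hx1] at hyx; exact absurd hyx (by decide)
    · rw [hx2] at hyx; exact absurd hyx (by decide)
    · rw [hx3] at hyx; exact absurd hyx (by decide)

theorem domNum_le {V : Type*} (H : SimpleGraph V) {D : Finset V} (h : IsDominating H D) :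
    domNum H ≤ D.card :=
  Nat.sInf_le ⟨D, rfl, h⟩

theorem crit {u v : Fin 28} (huv : u ≠ v) (hadj : ¬ G.Adj u v) :
    ∃ D : Finset (Fin 28), D.card ≤ 2 ∧ IsDominating (G ⊔ SimpleGraph.edge u v) D := by
  have hb : ¬ b u v = true := fun h => hadj ⟨huv, h⟩
  rcases crit_check u v with h | h | ⟨w, h | h⟩
  · exact absurd h huv
  · exact absurd h hb
  · refine ⟨{u, w}, card_le_two, ?_⟩
    intro x hx
    simp only [mem_insert, mem_singleton, not_or] at hx
    rcases h x with rfl | h | h
    · exact ⟨u, by simp, by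
        rw [SimpleGraph.sup_adj, SimpleGraph.edge_adj]
        right; exact ⟨Or.inl ⟨rfl, rfl⟩, huv⟩⟩
    · exact ⟨u, by simp, by
        rw [SimpleGraph.sup_adj]; left; exact ⟨fun e => hx.1 e.symm, h⟩⟩
    · exact ⟨w, by simp, by
        rw [SimpleGraph.sup_adj]; left; exact ⟨fun e => hx.2 e.symm, h⟩⟩
  · refine ⟨{v, w}, card_le_two, ?_⟩
    intro x hx
    simp only [mem_insert, mem_singleton, not_or] at hx
    rcases h x with rfl | h | h
    · exact ⟨v, by simp, by
        rw [SimpleGraph.sup_adj, SimpleGraph.edge_adj]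
        right; exact ⟨Or.inr ⟨rfl, rfl⟩, huv.symm⟩⟩
    · exact ⟨v, by simp, by
        rw [SimpleGraph.sup_adj]; left; exact ⟨fun e => hx.1 e.symm, h⟩⟩
    · exact ⟨w, by simp, by
        rw [SimpleGraph.sup_adj]; left; exact ⟨fun e => hx.2 e.symm, h⟩⟩

theorem triple_dom : ∀ x, b 0 x = true ∨ b 1 x = true ∨ b 7 x = true := by
  decide +kernel

theorem domNum_G : domNum G = 3 := by
  apply le_antisymm
  · refine (domNum_le G (D := {0, 1, 7}) ?_).trans (by decide)
    rw [dom_iff]
    intro x
    rcases triple_dom x with h | h | h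
    · exact ⟨0, by simp, h⟩
    · exact ⟨1, by simp, h⟩
    · exact ⟨7, by simp, h⟩
  · refine le_csInf ?_ ?_
    · exact ⟨_, Finset.univ, rfl, fun v hv => absurd (mem_univ v) hv⟩
    · rintro k ⟨D, rfl, hD⟩
      exact three_le_of_dom hD

theorem indDomNum_G : indDomNum G = 4 := by
  have h4 : IsDominating G ({0, 7, 14, 21} : Finset (Fin 28)) := by
    rw [dom_iff]
    intro x
    rcases four_check x with h | h | h | h
    · exact ⟨0, by simp, h⟩
    · exact ⟨7, by simp, h⟩
    · exact ⟨14, by simp, h⟩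
    · exact ⟨21, by simp, h⟩
  have h4i : IsIndependent G ({0, 7, 14, 21} : Finset (Fin 28)) :=
    fun x hx y hy h => four_indep x hx y hy h
  apply le_antisymm
  · exact Nat.sInf_le ⟨{0, 7, 14, 21}, by decide, h4, h4i⟩
  · refine le_csInf ⟨_, {0, 7, 14, 21}, rfl, h4, h4i⟩ ?_
    rintro k ⟨D, rfl, hD, hi⟩
    exact four_le_of_indDom hD hi

/-- There is a 3-critical graph on 28 (`< 56`) vertices with `γ = 3` and `i = 4`. -/
theorem result : ∃ G : SimpleGraph (Fin 28), IsThreeCritical G ∧ domNum G = 3 ∧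
    indDomNum G = 4 := by
  refine ⟨G, ⟨domNum_G, ?_⟩, domNum_G, indDomNum_G⟩
  intro u v huv hadj
  obtain ⟨D, hD, hdom⟩ := crit huv hadj
  have := domNum_le _ hdom
  omega

end Pool.Agent.Results.MP_5ead0a_co.SmallExample
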